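import Pool.Agent.Work.MP_9d0e17_ap.Interface

/-! AP90, block CELL (helper59): pigeonhole for the twist. -/

set_option autoImplicit false

namespace Pool.Agent.Work.AP90.helper59

open Finset Pool.Agent.Paley67 Pool.Agent.Work.LV

theorem norm_psi (p : ℕ) [Fact p.Prime] (a : ZMod p) : ‖psi p a‖ = 1 := by
  exact AddChar.norm_apply (psi p) a

theorem psi_close (p : ℕ) [Fact p.Prime] (k : ℤ) :
    ‖psi p (k : ZMod p) - 1‖ ≤ 2 * Real.pi * |(k : ℝ)| / p := by
  have h1 : psi p (k : ZMod p) = Complex.exp (Complex.I * ((2 * Real.pi * k / p : ℝ) : ℂ)) := by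
    have h := ZMod.stdAddChar_coe (N := p) k
    rw [show psi p (k : ZMod p) = ZMod.stdAddChar (k : ZMod p) from rfl, h]
    congr 1
    push_cast
    ring
  rw [h1]
  refine (Real.norm_exp_I_mul_ofReal_sub_one_le).trans ?_
  rw [Real.norm_eq_abs, abs_div, abs_mul, abs_mul, abs_of_nonneg Real.pi_pos.le,
    abs_of_nonneg (show (0 : ℝ) ≤ 2 by norm_num), abs_of_nonneg (show (0 : ℝ) ≤ (p : ℝ) from
      Nat.cast_nonneg p)]

theorem stmt_CELL : Stmt_CELL := by
  intro p _ c P₀ G B hG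
  have hp : 0 < p := (Fact.out : p.Prime).pos
  have hpr : (0 : ℝ) < p := by exact_mod_cast hp
  have hGr : (0 : ℝ) < G := by exact_mod_cast (show 0 < G by omega)
  set cell : ℕ → ℕ := fun a => G * (c * (a : ZMod p)).val / p with hcell
  have hmaps : ∀ a ∈ P₀, cell a ∈ range G := by
    intro a _
    rw [mem_range, hcell]
    rw [Nat.div_lt_iff_lt_mul hp]
    exact Nat.mul_lt_mul_of_pos_left (ZMod.val_lt _) (by omega)
  rcases P₀.eq_empty_or_nonempty with rfl | hne
  · exact ⟨0, ∅, Subset.refl _, by simp, by simp⟩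
  obtain ⟨g, hg, hgc⟩ : ∃ g ∈ range G, P₀.card ≤ G * (P₀.filter fun a => cell a = g).card := by
    by_contra hcon
    push Not at hcon
    have h1 : P₀.card = ∑ g ∈ range G, (P₀.filter fun a => cell a = g).card :=
      card_eq_sum_card_fiberwise (fun a ha => mem_coe.2 (hmaps a ha))
    have h2 : G * P₀.card = ∑ g ∈ range G, G * (P₀.filter fun a => cell a = g).card := by
      rw [← mul_sum, ← h1]
    have h3 : ∑ g ∈ range G, G * (P₀.filter fun a => cell a = g).card < ∑ _g ∈ range G, P₀.card :=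
      sum_lt_sum_of_nonempty ⟨0, mem_range.2 (by omega)⟩ fun g hg => hcon g hg
    rw [sum_const, card_range, smul_eq_mul] at h3
    omega
  have hPne : (P₀.filter fun a => cell a = g).Nonempty := by
    rw [← card_pos]
    have := hne.card_pos
    by_contra h
    have h0 : (P₀.filter fun a => cell a = g).card = 0 := by omega
    rw [h0] at hgc
    omega
  obtain ⟨a0, ha0⟩ := hPne
  refine ⟨c * (a0 : ZMod p), P₀.filter fun a => cell a = g, filter_subset _ _, hgc, ?_⟩
  intro a ha b hb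
  rw [mem_filter] at ha ha0
  set u := (c * (a : ZMod p)).val with hu
  set v := (c * (a0 : ZMod p)).val with hv
  have hk : (c * (a : ZMod p)) = c * (a0 : ZMod p) + (((u : ℤ) - v : ℤ) : ZMod p) := by
    push_cast
    rw [hu, hv, ZMod.natCast_zmod_val, ZMod.natCast_zmod_val]
    ring
  have habs : |(((u : ℤ) - v : ℤ) : ℝ)| ≤ p / G := by
    have h1 : G * u / p = G * v / p := ha.2.trans ha0.2.symm
    have h2 := Nat.div_add_mod (G * u) p
    have h3 := Nat.div_add_mod (G * v) p
    have h4 := Nat.mod_lt (G * u) hp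
    have h5 := Nat.mod_lt (G * v) hp
    rw [h1] at h2
    have h6 : |((G * u : ℕ) : ℝ) - ((G * v : ℕ) : ℝ)| ≤ p := by
      rw [abs_le]
      have h7 : G * v ≤ G * u + p := by omega
      have h8 : G * u ≤ G * v + p := by omega
      have h7' : ((G * v : ℕ) : ℝ) ≤ ((G * u : ℕ) : ℝ) + p := by exact_mod_cast h7
      have h8' : ((G * u : ℕ) : ℝ) ≤ ((G * v : ℕ) : ℝ) + p := by exact_mod_cast h8
      constructor <;> linarith
    rw [le_div_iff₀ hGr]
    have h7 : |(((u : ℤ) - v : ℤ) : ℝ)| * G = |((G * u : ℕ) : ℝ) - ((G * v : ℕ) : ℝ)| := by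
      push_cast
      rw [← mul_sub, abs_mul, abs_of_pos hGr, mul_comm]
    rw [h7]
    exact h6
  have h1 : c * (a : ZMod p) * (b : ZMod p) = c * (a0 : ZMod p) * (b : ZMod p) +
      ((((u : ℤ) - v) * b : ℤ) : ZMod p) := by
    rw [hk]
    push_cast
    ring
  rw [h1, AddChar.map_add_eq_mul]
  have h2 : psi p (c * (a0 : ZMod p) * (b : ZMod p)) * psi p ((((u : ℤ) - v) * b : ℤ) : ZMod p) -
      psi p (c * (a0 : ZMod p) * (b : ZMod p)) = psi p (c * (a0 : ZMod p) * (b : ZMod p)) *
      (psi p ((((u : ℤ) - v) * b : ℤ) : ZMod p) - 1) := by ring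
  rw [h2, norm_mul, norm_psi, one_mul]
  refine (psi_close p _).trans ?_
  have hbB : (b : ℝ) ≤ B := by exact_mod_cast (mem_Icc.1 hb).2
  have h3 : |((((u : ℤ) - v) * b : ℤ) : ℝ)| ≤ p / G * B := by
    push_cast
    rw [abs_mul, abs_of_nonneg (show (0 : ℝ) ≤ (b : ℝ) from Nat.cast_nonneg b)]
    push_cast at habs
    exact mul_le_mul habs hbB (Nat.cast_nonneg _) (by positivity)
  rw [div_le_iff₀ hpr]
  calc 2 * Real.pi * |((((u : ℤ) - v) * b : ℤ) : ℝ)| ≤ 2 * Real.pi * (p / G * B) :=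
        mul_le_mul_of_nonneg_left h3 (by positivity)
    _ = 2 * Real.pi * B / G * p := by ring

end Pool.Agent.Work.AP90.helper59
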