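import Pool.Agent.Work.MP_9d0e17_ap.Interface

/-! AP90, block SEP (helper59): a separated set of representatives. -/

set_option autoImplicit false

namespace Pool.Agent.Work.AP90.helper59

open Finset Pool.Agent.Paley67 Pool.Agent.Work.LV

theorem stmt_SEP : Stmt_SEP := by
  classical
  intro p _ N hN Ξ
  have hNr : (0 : ℝ) < N := by exact_mod_cast (show 0 < N by omega)
  set 𝓡 : Finset ℤ := Ξ.image fun a => (a.val : ℤ) with hR
  obtain ⟨𝓜, hmem, hmax⟩ := Finset.exists_max_image (𝓡.powerset.filter fun S => Sep p N S)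
    Finset.card ⟨∅, by simp [LV.Sep]⟩
  rw [mem_filter, mem_powerset] at hmem
  have hΞ : ∀ M ∈ 𝓜, (M : ZMod p) ∈ Ξ := by
    intro M hM
    have h1 := hmem.1 hM
    rw [hR, mem_image] at h1
    obtain ⟨a, ha, rfl⟩ := h1
    rw [Int.cast_natCast, ZMod.natCast_zmod_val]
    exact ha
  refine ⟨𝓜, hmem.2, hΞ, ?_⟩
  have hclose : ∀ M ∈ 𝓡, ∃ M' ∈ 𝓜, ∃ k : ℤ, |((M - M' - k * p : ℤ) : ℝ)| < N := by
    intro M hM
    by_contra hcon
    push Not at hcon
    have hnot : M ∉ 𝓜 := by
      intro hM'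
      have := hcon M hM' 0
      simp at this
      omega
    have hsep : Sep p N (insert M 𝓜) := by
      intro A hA A' hA' hne k
      rw [mem_insert] at hA hA'
      rcases hA with rfl | hA <;> rcases hA' with rfl | hA'
      · exact absurd rfl hne
      · exact hcon A' hA' k
      · have h1 := hcon A hA (-k)
        have h2 : (A' - A - -k * p : ℤ) = -(A - A' - k * p : ℤ) := by ring
        rw [h2, Int.cast_neg, abs_neg] at h1
        exact h1
      · exact hmem.2 A hA A' hA' hne k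
    have h1 := hmax (insert M 𝓜) (by
      rw [mem_filter, mem_powerset]
      exact ⟨insert_subset hM hmem.1, hsep⟩)
    rw [card_insert_of_notMem hnot] at h1
    omega
  have hsub : Ξ ⊆ (𝓜 ×ˢ Finset.Ioo (-(N : ℤ)) N).image fun x => ((x.1 + x.2 : ℤ) : ZMod p) := by
    intro a ha
    have h1 : (a.val : ℤ) ∈ 𝓡 := by
      rw [hR, mem_image]
      exact ⟨a, ha, rfl⟩
    obtain ⟨M', hM', k, hk⟩ := hclose _ h1
    rw [mem_image]
    refine ⟨(M', (a.val : ℤ) - M' - k * p), ?_, ?_⟩
    · rw [mem_product, mem_Ioo]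
      refine ⟨hM', ?_⟩
      rw [abs_lt] at hk
      have h2 : -(N : ℝ) < (((a.val : ℤ) - M' - k * p : ℤ) : ℝ) := hk.1
      have h3 : (((a.val : ℤ) - M' - k * p : ℤ) : ℝ) < (N : ℝ) := hk.2
      exact ⟨by exact_mod_cast h2, by exact_mod_cast h3⟩
    · simp only
      push_cast
      rw [ZMod.natCast_zmod_val, ZMod.natCast_self]
      ring
  have h1 := (card_le_card hsub).trans card_image_le
  rw [card_product, Int.card_Ioo] at h1
  have h2 : ((N : ℤ) - -(N : ℤ) - 1).toNat ≤ 2 * N := by omega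
  calc Ξ.card ≤ 𝓜.card * ((N : ℤ) - -(N : ℤ) - 1).toNat := h1
    _ ≤ 𝓜.card * (2 * N) := Nat.mul_le_mul_left _ h2
    _ = 2 * N * 𝓜.card := by ring

end Pool.Agent.Work.AP90.helper59
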